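import Mathlib
import Pool.Agent.H.MP_9f65ab_al.Main

set_option autoImplicit false

namespace Pool.Agent.Results.MP_9f65ab_al.Counter

open Pool.Agent.H.MP_9f65ab_al

theorem result : ∃ (n : ℕ) (G : AddSubgroup (Fin n → ℚ)), IsButler G ∧ (∃ A, IsReg G A) ∧
    (∃ B, IsReg (Reg G) B) ∧ Reg (Reg G) ≠ Reg G := main

end Pool.Agent.Results.MP_9f65ab_al.Counter
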